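import Pool.Agent.Helper88.SE.Goals
import Pool.Agent.Helper31.RR.CB

/-!
# Packet SE-VB (MP_69be96_nt): the restriction to labels prime to `D` loses at most half
-/

set_option autoImplicit false

open Finset Filter Topology

open scoped Classical

namespace Pool.Agent.Helper30.SE

open Pool.Agent.Helper88.PP (pr Rg om Sf SS uu vv ee LA VV QQ cost nc dd)
open Pool.Agent.Helper88.RR (gg ab nz VM)
open Pool.Agent.Helper88.SE
open Pool.Agent.Helper31.RR (mem_SS mem_LA)

/-- the sum over the elements which are not prime to `D` -/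
theorem bad_sum (F : Finset ℕ) (f : ℕ → ℝ) (hf : ∀ r ∈ F, 0 ≤ f r) (D z : ℕ) (hD : D ≠ 0)
    (hF : ∀ r ∈ F, Sf z r) (K : ℝ)
    (hK : ∀ p ∈ D.primeFactors.filter (fun p => z < p), ∑ r ∈ F.filter (fun r => p ∣ r), f r ≤ K) :
    ∑ r ∈ F.filter (fun r => ¬ Nat.Coprime r D), f r ≤
      (D.primeFactors.filter (fun p => z < p)).card * K := by
  set DP := D.primeFactors.filter (fun p => z < p) with hDP
  have h1 : ∀ r ∈ F.filter (fun r => ¬ Nat.Coprime r D),
      f r ≤ ∑ p ∈ DP, if p ∣ r then f r else 0 := by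
    intro r hr
    rw [mem_filter] at hr
    obtain ⟨p, hp, hpr, hpD⟩ := Nat.Prime.not_coprime_iff_dvd.1 hr.2
    have hpz := (hF r hr.1).2 p hp hpr
    have hmem : p ∈ DP := mem_filter.2 ⟨Nat.mem_primeFactors.2 ⟨hp, hpD, hD⟩, hpz⟩
    have h2 := Finset.single_le_sum (f := fun p => if p ∣ r then f r else 0) (fun p _ => by
      show 0 ≤ if p ∣ r then f r else 0
      split_ifs
      · exact hf r hr.1
      · exact le_rfl) hmem
    simp only [if_pos hpr] at h2
    exact h2
  calc ∑ r ∈ F.filter (fun r => ¬ Nat.Coprime r D), f r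
      ≤ ∑ r ∈ F.filter (fun r => ¬ Nat.Coprime r D), ∑ p ∈ DP, (if p ∣ r then f r else 0) :=
        Finset.sum_le_sum h1
    _ ≤ ∑ r ∈ F, ∑ p ∈ DP, (if p ∣ r then f r else 0) := by
        refine Finset.sum_le_sum_of_subset_of_nonneg (Finset.filter_subset _ _) fun r hr _ => ?_
        refine Finset.sum_nonneg fun p _ => ?_
        split_ifs
        · exact hf r hr
        · exact le_rfl
    _ = ∑ p ∈ DP, ∑ r ∈ F.filter (fun r => p ∣ r), f r := by
        rw [Finset.sum_comm]
        exact Finset.sum_congr rfl fun p _ => by rw [Finset.sum_filter]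
    _ ≤ ∑ p ∈ DP, K := Finset.sum_le_sum hK
    _ = DP.card * K := by rw [Finset.sum_const, nsmul_eq_mul]

theorem vb : StmtVB := by
  obtain ⟨C, hC1, hC⟩ := Pool.Agent.Helper31.RR.cb
  refine ⟨max 16 ⌈4 * C ^ 2⌉₊, fun E z x y hE hS m q hm hqm hV P D hD => ?_⟩
  obtain ⟨hD0, -, hDc⟩ := hD
  have hE16 : 16 ≤ E := (le_max_left _ _).trans hE
  have hEC : 4 * C ^ 2 ≤ (E : ℝ) := (Nat.le_ceil _).trans (by exact_mod_cast (le_max_right _ _).trans hE)
  have hzE : (E : ℝ) + 1 ≤ z := (Real.add_one_le_exp (E : ℝ)).trans hS.1.1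
  have hEz : E + 1 ≤ z := by exact_mod_cast hzE
  have hz2 : 2 ≤ z := by omega
  have hz0 : (0 : ℝ) < z := by exact_mod_cast (by omega : 0 < z)
  have hMz : E / 16 ≤ z := by omega
  have hM1 : 1 ≤ E / 16 := by omega
  set M := E / 16 with hMdef
  have hcb := hC m q M z hm hz2 hMz hV
  set DP := D.primeFactors.filter (fun p => z < p) with hDP
  -- the factor
  have hfac : (DP.card : ℝ) * (C / z) ≤ 1 / 2 := by
    have h1 : ((DP.card : ℝ)) ^ 2 ≤ z := by exact_mod_cast hDc
    have h2 : ((DP.card : ℝ) * (C / z)) ^ 2 ≤ (1 / 2) ^ 2 := by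
      have e1 : ((DP.card : ℝ) * (C / z)) ^ 2 = (DP.card : ℝ) ^ 2 * (C ^ 2 / z ^ 2) := by
        rw [mul_pow, div_pow]
      rw [e1]
      calc (DP.card : ℝ) ^ 2 * (C ^ 2 / z ^ 2) ≤ z * (C ^ 2 / z ^ 2) :=
            mul_le_mul_of_nonneg_right h1 (by positivity)
        _ = C ^ 2 / z := by field_simp
        _ ≤ (1 / 2) ^ 2 := by
            rw [div_le_iff₀ hz0]
            linarith
    exact (abs_le_of_sq_le_sq' h2 (by norm_num)).2
  have hSSp : ∀ p ∈ DP, p < z ^ M → p ∈ SS z (z ^ M) := by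
    intro p hp hlt
    rw [hDP, mem_filter, Nat.mem_primeFactors] at hp
    refine mem_SS.2 ⟨⟨hp.1.1.one_lt.le, hlt⟩, hp.1.1.squarefree, fun l hl hlp => ?_⟩
    rw [(Nat.prime_dvd_prime_iff_eq hl hp.1.1).1 hlp]
    exact hp.2
  have hDPz : ∀ p ∈ DP, (z : ℝ) ≤ p := by
    intro p hp
    rw [hDP, mem_filter] at hp
    exact_mod_cast hp.2.le
  have hVpos : 0 < VV z m (q * m) := by linarith
  have hab0 : ∀ r, 0 ≤ ab m q z r := fun r => by
    unfold ab
    exact one_div_nonneg.2 (mul_nonneg (mul_nonneg hVpos.le (Nat.cast_nonneg _)) (Nat.cast_nonneg _))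
  -- the labels
  have b1 : ∑ r ∈ (LA z m (q * m)).filter (fun r => ¬ Nat.Coprime r D), ab m q z r ≤ 1 / 2 := by
    refine (bad_sum _ _ (fun r _ => hab0 r) D z hD0 (fun r hr => (mem_SS.1 (mem_LA.1 hr).1).2)
      (C / z) fun p hp => ?_).trans hfac
    by_cases hpM : p < z ^ M
    · have h1 := (hcb p (hSSp p hp hpM)).1
      have hp0 : (0 : ℝ) < p := lt_of_lt_of_le hz0 (hDPz p hp)
      have h2 : ∑ r ∈ (LA z m (q * m)).filter (fun r => p ∣ r), ab m q z r ≤ C / p := by
        rw [le_div_iff₀ hp0]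
        linarith
      exact h2.trans (div_le_div_of_nonneg_left (by linarith) hz0 (hDPz p hp))
    · have h1 : (LA z m (q * m)).filter (fun r => p ∣ r) = ∅ := by
        rw [Finset.filter_eq_empty_iff]
        intro r hr hpr
        have h2 := (mem_SS.1 (mem_LA.1 hr).1).1
        have h3 := Nat.le_of_dvd (by omega) hpr
        have h4 : z ^ (q * m) ≤ z ^ M := Nat.pow_le_pow_right (by omega) hqm
        omega
      rw [h1, Finset.sum_empty]
      exact div_nonneg (by linarith) hz0.le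
  have b2 : ∑ r ∈ (SS z (z ^ M)).filter (fun r => ¬ Nat.Coprime r D), 1 / (Nat.totient r : ℝ) ≤
      1 / 2 * VM M z := by
    have hVM0 : 0 ≤ VM M z := Finset.sum_nonneg fun r _ => by positivity
    refine (bad_sum _ _ (fun r _ => by positivity) D z hD0 (fun r hr => (mem_SS.1 hr).2)
      (C / z * VM M z) fun p hp => ?_).trans ?_
    · by_cases hpM : p < z ^ M
      · have h1 := (hcb p (hSSp p hp hpM)).2
        have hp0 : (0 : ℝ) < p := lt_of_lt_of_le hz0 (hDPz p hp)
        have h2 : ∑ r ∈ (SS z (z ^ M)).filter (fun r => p ∣ r), 1 / (Nat.totient r : ℝ) ≤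
            C * VM M z / p := by
          rw [le_div_iff₀ hp0]
          have h3 : VM M z = ∑ r ∈ SS z (z ^ M), 1 / (Nat.totient r : ℝ) := rfl
          rw [h3]
          linarith
        refine h2.trans ?_
        rw [mul_div_right_comm]
        exact mul_le_mul_of_nonneg_right
          (div_le_div_of_nonneg_left (by linarith) hz0 (hDPz p hp)) hVM0
      · have h1 : (SS z (z ^ M)).filter (fun r => p ∣ r) = ∅ := by
          rw [Finset.filter_eq_empty_iff]
          intro r hr hpr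
          have h2 := (mem_SS.1 hr).1
          have h3 := Nat.le_of_dvd (by omega) hpr
          omega
        rw [h1, Finset.sum_empty]
        exact mul_nonneg (div_nonneg (by linarith) hz0.le) hVM0
    · rw [← mul_assoc]
      exact mul_le_mul_of_nonneg_right hfac hVM0
  -- `V`
  have hVab : ∀ r, 1 / ((Nat.totient r : ℝ) * ee z r) = VV z m (q * m) * ab m q z r := by
    intro r
    unfold ab
    rw [mul_assoc (VV z m (q * m)), mul_one_div, div_mul_cancel_left₀ hVpos.ne', one_div]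
  have hVsplit : VV z m (q * m) = VD z m (q * m) D + VV z m (q * m) *
      ∑ r ∈ (LA z m (q * m)).filter (fun r => ¬ Nat.Coprime r D), ab m q z r := by
    have h1 : VV z m (q * m) = ∑ r ∈ LA z m (q * m), 1 / ((Nat.totient r : ℝ) * ee z r) := rfl
    have h2 : VD z m (q * m) D = ∑ r ∈ (LA z m (q * m)).filter (fun r => Nat.Coprime r D),
      1 / ((Nat.totient r : ℝ) * ee z r) := rfl
    conv_lhs => rw [h1, ← Finset.sum_filter_add_sum_filter_not _ (fun r => Nat.Coprime r D)]
    rw [h2, Finset.mul_sum]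
    congr 1
    exact Finset.sum_congr rfl fun r _ => hVab r
  have hbad0 : 0 ≤ ∑ r ∈ (LA z m (q * m)).filter (fun r => ¬ Nat.Coprime r D), ab m q z r :=
    Finset.sum_nonneg fun r _ => hab0 r
  have hVD1 : VV z m (q * m) ≤ 2 * VD z m (q * m) D := by nlinarith
  have hVD2 : VD z m (q * m) D ≤ VV z m (q * m) := by nlinarith
  have hVDpos : 0 < VD z m (q * m) D := by linarith
  -- `V_N`
  have hVM : VM M z = VN M z D + ∑ r ∈ (SS z (z ^ M)).filter (fun r => ¬ Nat.Coprime r D),
      1 / (Nat.totient r : ℝ) := by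
    have h1 : VM M z = ∑ r ∈ SS z (z ^ M), 1 / (Nat.totient r : ℝ) := rfl
    have h2 : VN M z D = ∑ r ∈ (SS z (z ^ M)).filter (fun r => Nat.Coprime r D),
      1 / (Nat.totient r : ℝ) := rfl
    rw [h1, h2, Finset.sum_filter_add_sum_filter_not]
  have hVN1 : VM M z ≤ 2 * VN M z D := by linarith
  have hVN2 : 1 ≤ VN M z D := by
    have h1 : (1 : ℕ) ∈ SD z (z ^ M) D := by
      refine mem_filter.2 ⟨mem_SS.2 ⟨⟨le_rfl, Nat.one_lt_pow (by omega) (by omega)⟩, squarefree_one,
        fun l hl hl1 => absurd (Nat.dvd_one.1 hl1) hl.one_lt.ne'⟩, Nat.coprime_one_left D⟩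
    have h2 := Finset.single_le_sum (f := fun s : ℕ => 1 / (Nat.totient s : ℝ))
      (fun s _ => by positivity) h1
    simp only [Nat.totient_one, Nat.cast_one, div_one] at h2
    exact h2
  refine ⟨hVD1, hVD2, hVN1, hVN2, fun r _ => ?_, ?_⟩
  · have hx : 0 ≤ (Nat.totient r : ℝ) * ee z r := mul_nonneg (Nat.cast_nonneg _) (Nat.cast_nonneg _)
    have e1 : ad m q z D r = 1 / (VD z m (q * m) D * ((Nat.totient r : ℝ) * ee z r)) := by
      unfold ad
      rw [mul_assoc]
    have e2 : ab m q z r = 1 / (VV z m (q * m) * ((Nat.totient r : ℝ) * ee z r)) := by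
      unfold ab
      rw [mul_assoc]
    refine ⟨by rw [e1]; exact one_div_nonneg.2 (mul_nonneg hVDpos.le hx), ?_⟩
    rw [e1, e2]
    rcases hx.eq_or_lt with h | h
    · rw [← h, mul_zero, mul_zero, div_zero, mul_zero]
    · rw [mul_one_div, div_le_div_iff₀ (mul_pos hVDpos h) (mul_pos hVpos h)]
      nlinarith
  · have h1 : ∀ r ∈ LD z m (q * m) D, ad m q z D r =
        (1 / VD z m (q * m) D) * (1 / ((Nat.totient r : ℝ) * ee z r)) := by
      intro r _
      unfold ad
      rw [mul_assoc, one_div_mul_one_div]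
    rw [Finset.sum_congr rfl h1, ← Finset.mul_sum]
    have h2 : ∑ r ∈ LD z m (q * m) D, 1 / ((Nat.totient r : ℝ) * ee z r) = VD z m (q * m) D := rfl
    rw [h2, one_div_mul_cancel hVDpos.ne']

end Pool.Agent.Helper30.SE
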